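import Pool.Agent.R923.SQ.A6

/-!
Jointly hyponormal roots of spherically quasinormal tuples: if `T` is a jointly hyponormal
`d`-tuple of bounded operators on a complex Hilbert space and the tuple `T^n` of all words of
length `n` is spherically quasinormal for some `n ≥ 1`, then `T` is spherically quasinormal.
Commutativity of `T` is not needed.
-/

set_option autoImplicit false

open scoped InnerProductSpace ComplexOrder
open ContinuousLinearMap

namespace Pool.Agent.Results.MP_20dafb_an.HyponormalRoots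

variable {H : Type*} [NormedAddCommGroup H] [InnerProductSpace ℂ H] [CompleteSpace H]

/-- `T` is jointly hyponormal: the operator matrix on `H ⊕ ... ⊕ H` with `(i, j)` entry
`[T_j^*, T_i] = T_j^* T_i - T_i T_j^*` is positive. (The matrix is self-adjoint by its form, so its
quadratic form is real and positivity means that the quadratic form is nonnegative.) -/
def JointlyHyponormal {d : ℕ} (T : Fin d → H →L[ℂ] H) : Prop :=
  ∀ x : Fin d → H, 0 ≤ (∑ i, ∑ j,
    ⟪x i, (adjoint (T j) * T i - T i * adjoint (T j)) (x j)⟫_ℂ).re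

/-- A finite family is spherically quasinormal: each member commutes with `∑ T_j^* T_j`. -/
def SphericallyQuasinormal {ι : Type*} [Fintype ι] (T : ι → H →L[ℂ] H) : Prop :=
  ∀ i, T i * (∑ j, adjoint (T j) * T j) = (∑ j, adjoint (T j) * T j) * T i

/-- The tuple `T^n` of all words `T_{w 0} T_{w 1} ⋯ T_{w (n-1)}`, indexed by `w : Fin n → Fin d`. -/
def tuplePow {d : ℕ} (T : Fin d → H →L[ℂ] H) (n : ℕ) : (Fin n → Fin d) → H →L[ℂ] H :=
  fun w => (List.ofFn fun k => T (w k)).prod

open R923.SQ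

theorem rowBound_of_jointlyHyponormal {d : ℕ} {T : Fin d → H →L[ℂ] H}
    (h : JointlyHyponormal T) : RowBound T := by
  intro x
  have h0 := h x
  have e0 : ∀ i j, ⟪x i, (adjoint (T j) * T i - T i * adjoint (T j)) (x j)⟫_ℂ =
      ⟪T j (x i), T i (x j)⟫_ℂ - ⟪adjoint (T i) (x i), adjoint (T j) (x j)⟫_ℂ := by
    intro i j
    rw [ContinuousLinearMap.sub_apply, inner_sub_right, ContinuousLinearMap.mul_apply,
      ContinuousLinearMap.mul_apply, adjoint_inner_right, adjoint_inner_left]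
  simp only [e0, Finset.sum_sub_distrib, Complex.sub_re] at h0
  have e1 : (∑ i, ∑ j, ⟪adjoint (T i) (x i), adjoint (T j) (x j)⟫_ℂ).re =
      ‖∑ j, adjoint (T j) (x j)‖ ^ 2 := by
    have h1 : ∑ i, ∑ j, ⟪adjoint (T i) (x i), adjoint (T j) (x j)⟫_ℂ =
        ⟪∑ j, adjoint (T j) (x j), ∑ j, adjoint (T j) (x j)⟫_ℂ := by
      rw [sum_inner]
      refine Finset.sum_congr rfl fun i _ => ?_
      rw [inner_sum]
    rw [h1]
    exact inner_self_eq_norm_sq (𝕜 := ℂ) (∑ j, adjoint (T j) (x j))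
  rw [e1] at h0
  have e2 : ∀ j, RCLike.re ⟪Theta T 1 (x j), x j⟫_ℂ = ∑ i, ‖T i (x j)‖ ^ 2 := by
    intro j
    rw [Theta_apply, sum_inner, map_sum]
    refine Finset.sum_congr rfl fun i _ => ?_
    rw [adjoint_inner_left, ContinuousLinearMap.one_apply]
    exact inner_self_eq_norm_sq (𝕜 := ℂ) (T i (x j))
  have e3 : (∑ i, ∑ j, ⟪T j (x i), T i (x j)⟫_ℂ).re ≤ ∑ j, ∑ i, ‖T i (x j)‖ ^ 2 := by
    rw [Complex.re_sum]
    simp only [Complex.re_sum]
    have h1 : ∀ i j, (⟪T j (x i), T i (x j)⟫_ℂ).re ≤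
        (‖T j (x i)‖ ^ 2 + ‖T i (x j)‖ ^ 2) / 2 := by
      intro i j
      have h2 : (⟪T j (x i), T i (x j)⟫_ℂ).re ≤ ‖T j (x i)‖ * ‖T i (x j)‖ :=
        re_inner_le_norm (𝕜 := ℂ) _ _
      nlinarith [sq_nonneg (‖T j (x i)‖ - ‖T i (x j)‖)]
    calc ∑ i, ∑ j, (⟪T j (x i), T i (x j)⟫_ℂ).re
        ≤ ∑ i, ∑ j, (‖T j (x i)‖ ^ 2 + ‖T i (x j)‖ ^ 2) / 2 :=
          Finset.sum_le_sum fun i _ => Finset.sum_le_sum fun j _ => h1 i j
      _ = (∑ i, ∑ j, ‖T j (x i)‖ ^ 2) / 2 + (∑ i, ∑ j, ‖T i (x j)‖ ^ 2) / 2 := by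
          simp only [add_div, Finset.sum_add_distrib, Finset.sum_div]
      _ = ∑ j, ∑ i, ‖T i (x j)‖ ^ 2 := by
          rw [Finset.sum_comm (f := fun i j => ‖T i (x j)‖ ^ 2)]
          ring
  simp only [e2]
  linarith

theorem tuplePow_succ {d : ℕ} (T : Fin d → H →L[ℂ] H) (n : ℕ) (i : Fin d) (w : Fin n → Fin d) :
    tuplePow T (n + 1) (Fin.cons i w) = T i * tuplePow T n w := by
  simp [tuplePow, List.ofFn_succ]

theorem iterate_Theta {d : ℕ} (T : Fin d → H →L[ℂ] H) (n : ℕ) (X : H →L[ℂ] H) :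
    (Theta T)^[n] X = ∑ w, adjoint (tuplePow T n w) * X * tuplePow T n w := by
  induction n generalizing X with
  | zero =>
    rw [Fintype.sum_unique]
    have h1 : tuplePow T 0 (default : Fin 0 → Fin d) = 1 := by simp [tuplePow]
    rw [h1, ← ContinuousLinearMap.star_eq_adjoint, star_one]
    simp
  | succ n ih =>
    rw [Function.iterate_succ_apply, ih,
      ← (Fin.consEquiv (fun _ : Fin (n + 1) => Fin d)).sum_comp, Fintype.sum_prod_type,
      Finset.sum_comm]
    refine Finset.sum_congr rfl fun w _ => ?_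
    rw [Theta, Finset.mul_sum, Finset.sum_mul]
    refine Finset.sum_congr rfl fun i _ => ?_
    have h1 : tuplePow T (n + 1) ((Fin.consEquiv (fun _ : Fin (n + 1) => Fin d)) (i, w)) =
        T i * tuplePow T n w := tuplePow_succ T n i w
    have h2 : adjoint (T i * tuplePow T n w) = adjoint (tuplePow T n w) * adjoint (T i) :=
      ContinuousLinearMap.adjoint_comp _ _
    rw [h1, h2]
    simp only [mul_assoc]

/-- If `T` is a jointly hyponormal `d`-tuple and `T^n` is spherically quasinormal for some `n ≥ 1`,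
then `T` is spherically quasinormal. -/
theorem result : ∀ (H : Type*) [NormedAddCommGroup H] [InnerProductSpace ℂ H] [CompleteSpace H]
    (d : ℕ) (T : Fin d → H →L[ℂ] H) (n : ℕ), 1 ≤ n → JointlyHyponormal T →
    SphericallyQuasinormal (tuplePow T n) → SphericallyQuasinormal T := by
  intro H _ _ _ d T n hn hJ hS
  have hB : ∑ j, adjoint (T j) * T j = Theta T 1 := by
    simp only [Theta, mul_one]
  have hA : ∑ w, adjoint (tuplePow T n w) * tuplePow T n w = (Theta T)^[n] 1 := by
    rw [iterate_Theta]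
    simp only [mul_one]
  obtain ⟨p, rfl⟩ : ∃ p, n = p + 1 := ⟨n - 1, by omega⟩
  rcases Nat.eq_zero_or_pos p with rfl | hp
  · intro i
    have h1 := hS (fun _ => i)
    rw [hA] at h1
    have h2 : tuplePow T (0 + 1) (fun _ => i) = T i := by simp [tuplePow]
    rw [h2] at h1
    rw [hB]
    exact h1
  · intro i
    rw [hB]
    refine core T (rowBound_of_jointlyHyponormal hJ) p hp ?_ i
    intro C hC0 hCp
    rw [iterate_Theta]
    have hcomm : ∀ w, C ^ p * tuplePow T (p + 1) w = tuplePow T (p + 1) w * C ^ p := by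
      intro w
      have h1 := hS w
      rw [hA, ← hCp] at h1
      have h2 := rpow_intertwine (S := tuplePow T (p + 1) w) (pow_nonneg' hC0 (p+1))
        (pow_nonneg' hC0 (p+1)) h1.symm (t := 1/((p:ℝ)+1)) (by positivity)
      have h3 : (C ^ (p+1)) ^ (1/((p:ℝ)+1)) = C := root_of_pow p hC0
      rw [h3] at h2
      exact pow_intertwine h2 p
    have h3 : ∀ w, adjoint (tuplePow T (p + 1) w) * C ^ p * tuplePow T (p + 1) w =
        (adjoint (tuplePow T (p + 1) w) * tuplePow T (p + 1) w) * C ^ p := by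
      intro w
      rw [mul_assoc, hcomm, mul_assoc]
    simp only [h3]
    rw [← Finset.sum_mul, hA, ← hCp, ← pow_add]
    congr 1
    ring

end Pool.Agent.Results.MP_20dafb_an.HyponormalRoots
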